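import Pool.Agent.Q328.VD.Many
import Pool.Agent.Q328.VD.Window

/-!
# The torsion points of bounded degree on the members of a family of abelian varieties near every integral point, few digits being changed

Let `A` be a family of abelian varieties, of any dimension, over an open subset `≠ 0` of the affine space of dimension `d` over
`𝓞 L[1/n]`, `L` a number field, for example the Jacobians of the curves `y ^ 2 = f(x)` with all coefficients of `f` as parameters, and
let `D` be a natural number. Let `q` be the number of elements of the residue field of a place above the prime number `p`, and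
`m = lcm(1, …, D)`. For a residue class `x` modulo `p` of parameters with good reduction let `N p x` be the number of points of `A_x`
over the field with `q ^ m` elements. By the injectivity of the reduction map the order of every torsion point of degree at most `D`
over `L` of the member `A_t`, if it is prime to `p`, divides `N p x`, `x` being the residue class of `t`. Let `T` be a natural number
such that for all prime numbers `ℓ` and many `p ≥ ℓ ^ c` for a proportion at least `κ > 0` of the residue classes `x` modulo `p` every power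
of `ℓ` which divides `N p x` divides `T`. By the theorems of Deligne and Katz this is so if the monodromy group modulo `ℓ` of the family
is the full symplectic group for all `ℓ`, where `T` depends only on `D` and the dimension; for `D = 1` one can take `T = 1`.

**Theorem.** Let an ARBITRARY integral point be given, whose coordinates have at most `K` digits in base `b`. Choose for each coordinate
`r` of the `K` positions and replace the digits at these positions by arbitrary other digits; let `C log K ≤ r ≤ K / 2`. Then for all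
but a proportion `K ^ (-B)` of the choices the order of **every** torsion point of degree at most `D` over `L` on the member `A_t` at
the new point `t` divides `T`. Here `B` is arbitrary, and `C` depends only on the family, `D`, `T`, `b`, `B` and the other constants,
but not on the point or on the new digits.

So the torsion is uniformly bounded, and in many cases trivial, for almost all members near EVERY integral point, in very thin sets of
`K ^ O(log K)` points, if `r = O(log K)`, while the box contains `b ^ (d K)` points. There is no bound for `ℓ`: the primes `ℓ` up to a power of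
`K` are treated one by one with a law for the residues modulo many primes of vectors of which few digits are changed
(`Pool.Agent.Q328.VD`, from the law of helper894 for one integer), and larger `ℓ` are excluded by one small prime of good reduction.
-/

set_option autoImplicit false

namespace Pool.Agent.Results.MP_160b6c_nt.FewDigitMembers

/-- The residue class modulo `p` of an integral point `t`. -/
def red {d : ℕ} (p : ℕ) (t : Fin d → ℤ) : Fin d → ZMod p := fun j => (t j : ZMod p)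

/-- A family of abelian varieties `A_t` over a number field `L` with `d` integral parameters, for `t` in a set `U ⊆ ℤ ^ d`. `G t` is the
group of the points of `A_t` over an algebraic closure of `L` and `pts t` the set of those whose degree over `L` is bounded by a
fixed number. For every prime number `p` there is a set `good p` of residue classes modulo `p`; the integral points in these classes belong
to `U`, and if the order of a point in `pts t` is finite and prime to `p`, it divides the natural number `N p x > 0`, which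
depends only on the residue class `x` of `t` modulo `p` (a number of points of the reduction over a finite field). -/
structure Family (d : ℕ) where
  U : Set (Fin d → ℤ)
  good : ∀ p : ℕ, Set (Fin d → ZMod p)
  mem : ∀ p : ℕ, p.Prime → ∀ t : Fin d → ℤ, red p t ∈ good p → t ∈ U
  G : (Fin d → ℤ) → Type
  [group : ∀ t, AddCommGroup (G t)]
  pts : ∀ t, Set (G t)
  nsmul : ∀ t, ∀ x ∈ pts t, ∀ n : ℕ, n • x ∈ pts t
  N : ∀ p : ℕ, (Fin d → ZMod p) → ℕ
  pos : ∀ p x, 0 < N p x
  dvd : ∀ p : ℕ, p.Prime → ∀ t : Fin d → ℤ, red p t ∈ good p → ∀ x ∈ pts t, IsOfFinAddOrder x →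
    p.Coprime (addOrderOf x) → addOrderOf x ∣ N p (red p t)

attribute [instance] Family.group

/-- The good residue classes `x` modulo `p` such that every power of `ℓ` which divides `N p x` divides `T`. -/
def tame {d : ℕ} (A : Family d) (T ℓ p : ℕ) : Set (Fin d → ZMod p) :=
  {x | x ∈ A.good p ∧ ∀ k : ℕ, ℓ ^ k ∣ A.N p x → ℓ ^ k ∣ T}

/-- The order of every torsion point in `pts t` divides `T`. -/
def TorsionDivides {d : ℕ} (A : Family d) (T : ℕ) (t : Fin d → ℤ) : Prop :=
  ∀ x ∈ A.pts t, IsOfFinAddOrder x → addOrderOf x ∣ T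

/-- The integers `s i * N i` (`s i` is a sign), after the digits of `N i` in base `b` at the positions in `S i` have been replaced
by the digits `f i`. -/
def changed (b K : ℕ) {d : ℕ} (s : Fin d → ℤ) (N : Fin d → ℕ) (f : Fin d → ℕ → ℕ) (S : Fin d → Finset ℕ) : Fin d → ℤ :=
  fun i => s i * ((∑ j ∈ Finset.range K, (if j ∈ S i then f i j else N i / b ^ j % b) * b ^ j : ℕ) : ℤ)

/-- `s i` are signs, `N i` has at most `K` digits, and `f i j` is a digit different from the digit number `j` of `N i`. -/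
def Admissible (b K : ℕ) {d : ℕ} (s : Fin d → ℤ) (N : Fin d → ℕ) (f : Fin d → ℕ → ℕ) : Prop :=
  (∀ i, s i = 1 ∨ s i = -1) ∧ (∀ i, N i < b ^ K) ∧ ∀ i j, f i j < b ∧ f i j ≠ N i / b ^ j % b

/-- The choices of `r` of the `K` positions for each of `d` integers; their number is `C(K, r) ^ d`. -/
def choices (d r K : ℕ) : Finset (Fin d → Finset ℕ) :=
  Fintype.piFinset (fun _ => Finset.powersetCard r (Finset.range K))

/-- Two good primes, of which one is small, and a tame prime for every small `ℓ` suffice. -/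
lemma torsion_of {d : ℕ} (A : Family d) (T : ℕ) (t : Fin d → ℤ) (X : ℝ)
    (h1 : ∃ p q : ℕ, p.Prime ∧ q.Prime ∧ p ≠ q ∧ red p t ∈ A.good p ∧ red q t ∈ A.good q ∧
      (A.N p (red p t) : ℝ) ≤ X ∧ (A.N q (red q t) : ℝ) ≤ X)
    (h2 : ∀ ℓ : ℕ, ℓ.Prime → (ℓ : ℝ) ≤ X → ∃ p : ℕ, p.Prime ∧ p ≠ ℓ ∧ red p t ∈ tame A T ℓ p) :
    TorsionDivides A T t := by
  intro x hx hfin
  rw [Nat.dvd_iff_prime_pow_dvd_dvd]
  intro ℓ k hℓ hk
  rcases Nat.eq_zero_or_pos k with hk0 | hk0
  · rw [hk0, pow_zero]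
    exact one_dvd _
  have hn : addOrderOf x ≠ 0 := (hfin.addOrderOf_pos).ne'
  obtain ⟨m, hm⟩ : ∃ m, m = addOrderOf x / ℓ ^ k := ⟨_, rfl⟩
  have hmd : m ∣ addOrderOf x := by rw [hm]; exact Nat.div_dvd_of_dvd hk
  have hm0 : m ≠ 0 := fun h => hn (by rw [h] at hmd; exact Nat.eq_zero_of_zero_dvd hmd)
  have hord : addOrderOf (m • x) = ℓ ^ k := by
    rw [addOrderOf_nsmul_of_dvd hm0 hmd, hm, Nat.div_div_self hk hn]
  have hfin2 : IsOfFinAddOrder (m • x) := by
    rw [← addOrderOf_pos_iff, hord]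
    exact pow_pos hℓ.pos _
  have hmem : m • x ∈ A.pts t := A.nsmul t x hx m
  have key : ∀ p : ℕ, p.Prime → p ≠ ℓ → red p t ∈ A.good p → ℓ ^ k ∣ A.N p (red p t) := by
    intro p hp hpl hg
    have h3 := A.dvd p hp t hg (m • x) hmem hfin2 (by
      rw [hord]
      exact Nat.Coprime.pow_right _ ((Nat.coprime_primes hp hℓ).2 hpl))
    rwa [hord] at h3
  have hle : ∀ p : ℕ, p.Prime → p ≠ ℓ → red p t ∈ A.good p → (A.N p (red p t) : ℝ) ≤ X → (ℓ : ℝ) ≤ X := by
    intro p hp hpl hg hX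
    have h4 : ℓ ≤ A.N p (red p t) :=
      (Nat.le_self_pow hk0.ne' ℓ).trans (Nat.le_of_dvd (A.pos p _) (key p hp hpl hg))
    have h5 : (ℓ : ℝ) ≤ (A.N p (red p t) : ℝ) := by exact_mod_cast h4
    exact h5.trans hX
  have hℓX : (ℓ : ℝ) ≤ X := by
    obtain ⟨p, q, hp, hq, hpq, hgp, hgq, hXp, hXq⟩ := h1
    by_cases hpl : p = ℓ
    · exact hle q hq (fun h => hpq (hpl.trans h.symm)) hgq hXq
    · exact hle p hp hpl hgp hXp
  obtain ⟨p, hp, hpl, htame⟩ := h2 ℓ hℓ hℓX
  exact htame.2 k (key p hp hpl htame.1)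

/-- **Torsion of bounded degree near every integral point, few digits being changed.** -/
theorem result {d : ℕ} (A : Family d) (T : ℕ) (P : ℕ → Prop) (κ θ a c : ℝ) (hκ : 0 < κ) (hθ : 0 < θ) (ha : 0 < a) (hc : 1 ≤ c)
    -- many prime numbers
    (hcount : ∃ y₀ : ℕ, ∀ y : ℕ, y₀ ≤ y → (y : ℝ) ^ θ ≤ (({p : ℕ | P p ∧ p ≤ y}).ncard : ℝ))
    -- a positive proportion of good classes
    (hgood : ∀ p, P p → p.Prime ∧ κ * (p : ℝ) ^ d ≤ ((A.good p).ncard : ℝ) ∧ ∀ x ∈ A.good p, (A.N p x : ℝ) ≤ (p : ℝ) ^ a)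
    -- a positive proportion of tame classes, for all `ℓ`
    (htame : ∀ p, P p → ∀ ℓ : ℕ, ℓ.Prime → (ℓ : ℝ) ^ c ≤ p → κ * (p : ℝ) ^ d ≤ ((tame A T ℓ p).ncard : ℝ)) :
    ∀ (b : ℕ), 2 ≤ b → ∀ B : ℝ, 0 < B →
      ∃ C : ℝ, 0 < C ∧ ∃ K₀ : ℕ, ∀ K : ℕ, K₀ ≤ K → ∀ r : ℕ, C * Real.log K ≤ r → 2 * r ≤ K →
      -- every integral point with coordinates with at most `K` digits and all new digits
      ∀ (s : Fin d → ℤ) (N : Fin d → ℕ) (f : Fin d → ℕ → ℕ), Admissible b K s N f →
        ∃ Ex ⊆ choices d r K, (Ex.card : ℝ) ≤ (K : ℝ) ^ (-B) * (K.choose r : ℝ) ^ d ∧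
          ∀ S ∈ choices d r K, S ∉ Ex →
            changed b K s N f S ∈ A.U ∧ TorsionDivides A T (changed b K s N f S) := by
  classical
  intro b hb B hB
  have hc0 : 0 < c := by linarith
  obtain ⟨δ, hδ⟩ : ∃ δ : ℝ, δ = θ / (4 * (a * c)) := ⟨_, rfl⟩
  have hδ0 : 0 < δ := by rw [hδ]; positivity
  have hδa : δ * a = θ / (4 * c) := by rw [hδ]; field_simp
  have hδc : δ * a * c = θ / 4 := by rw [hδ]; field_simp
  obtain ⟨C₁, hC₁, K₁, h1⟩ := Pool.Agent.Q328.VD.many_fin 1 b hb (B + 1) δ κ θ (by linarith) hδ0 hκ hθ d P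
    (fun p => A.good p) (fun p hp => ⟨(hgood p hp).1, by
      have := (hgood p hp).2.1
      rwa [← Nat.card_coe_set_eq] at this⟩) hcount
  obtain ⟨C₂, hC₂, K₂, h2⟩ := Pool.Agent.Q328.VD.window 0 b hb (B + 1 + δ * a) 1 κ θ (by positivity) one_pos hκ hθ d P
    (fun p hp => (hgood p hp).1) hcount
  refine ⟨C₁ + C₂, by positivity, K₁ + K₂ + 2, fun K hK r hr hrK s N f hA => ?_⟩
  have hK2 : (2 : ℝ) ≤ K := by exact_mod_cast (by omega : 2 ≤ K)
  have hK0 : (0 : ℝ) < K := by linarith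
  have hlog : 0 ≤ Real.log K := Real.log_nonneg (by linarith)
  have hr1 : C₁ * Real.log K ≤ r := le_trans (mul_le_mul_of_nonneg_right (by linarith) hlog) hr
  have hr2 : C₂ * Real.log K ≤ r := le_trans (mul_le_mul_of_nonneg_right (by linarith) hlog) hr
  -- the small `ℓ`
  obtain ⟨L, hL⟩ : ∃ L : Finset ℕ, L = (Finset.Icc 1 ⌊(K : ℝ) ^ (δ * a)⌋₊).filter (fun ℓ => ℓ.Prime) := ⟨_, rfl⟩
  have hLmem : ∀ ℓ, ℓ ∈ L ↔ ℓ.Prime ∧ (ℓ : ℝ) ≤ (K : ℝ) ^ (δ * a) := by
    intro ℓ
    rw [hL, Finset.mem_filter, Finset.mem_Icc]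
    constructor
    · rintro ⟨⟨_, h3⟩, h4⟩
      exact ⟨h4, le_trans (by exact_mod_cast h3) (Nat.floor_le (by positivity))⟩
    · rintro ⟨h3, h4⟩
      exact ⟨⟨h3.one_lt.le, Nat.le_floor h4⟩, h3⟩
  have hLcard : (L.card : ℝ) ≤ (K : ℝ) ^ (δ * a) := by
    have h3 : L.card ≤ ⌊(K : ℝ) ^ (δ * a)⌋₊ := by
      rw [hL]
      refine (Finset.card_filter_le _ _).trans ?_
      rw [Nat.card_Icc]
      omega
    exact le_trans (by exact_mod_cast h3) (Nat.floor_le (by positivity))
  have hpow : ∀ ℓ ∈ L, ∀ p : ℕ, (K : ℝ) ^ ((1 : ℝ) * θ / 4) < p → (ℓ : ℝ) ^ c ≤ p ∧ ℓ < p := by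
    intro ℓ hℓ p hp
    obtain ⟨h3, h4⟩ := (hLmem ℓ).1 hℓ
    have h5 : (ℓ : ℝ) ^ c ≤ (K : ℝ) ^ ((1 : ℝ) * θ / 4) := by
      have h6 := Real.rpow_le_rpow (Nat.cast_nonneg ℓ) h4 hc0.le
      rw [← Real.rpow_mul hK0.le, hδc] at h6
      rwa [one_mul]
    have h7 : (ℓ : ℝ) ≤ (ℓ : ℝ) ^ c := by
      have h8 : (1 : ℝ) ≤ ℓ := by exact_mod_cast h3.one_lt.le
      calc (ℓ : ℝ) = (ℓ : ℝ) ^ (1 : ℝ) := (Real.rpow_one _).symm
        _ ≤ (ℓ : ℝ) ^ c := Real.rpow_le_rpow_of_exponent_le h8 hc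
    refine ⟨h5.trans hp.le, ?_⟩
    have h9 : (ℓ : ℝ) < p := lt_of_le_of_lt (h7.trans h5) hp
    exact_mod_cast h9
  -- the exceptional choices
  obtain ⟨bad₁, hbad₁⟩ : ∃ bad₁ : Finset (Fin d → Finset ℕ), bad₁ =
      (choices d r K).filter (fun S => Set.ncard {p : ℕ | P p ∧ (p : ℝ) ≤ (K : ℝ) ^ δ ∧
        red p (changed b K s N f S) ∈ A.good p} ≤ 1) := ⟨_, rfl⟩
  obtain ⟨bad, hbad⟩ : ∃ bad : ℕ → Finset (Fin d → Finset ℕ), bad = fun ℓ =>
      (choices d r K).filter (fun S => Set.ncard {p : ℕ | P p ∧ (K : ℝ) ^ ((1 : ℝ) * θ / 4) < p ∧ (p : ℝ) ≤ (K : ℝ) ^ (1 : ℝ) ∧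
        red p (changed b K s N f S) ∈ tame A T ℓ p} ≤ 0) := ⟨_, rfl⟩
  have hb1 : (bad₁.card : ℝ) ≤ (K : ℝ) ^ (-(B + 1)) * (K.choose r : ℝ) ^ d := by
    rw [hbad₁]
    exact h1 K (by omega) r hr1 hrK N hA.2.1 s hA.1 f hA.2.2
  have hb2 : ∀ ℓ ∈ L, ((bad ℓ).card : ℝ) ≤ (K : ℝ) ^ (-(B + 1 + δ * a)) * (K.choose r : ℝ) ^ d := by
    intro ℓ hℓ
    rw [hbad]
    refine h2 K (by omega) r hr2 hrK (fun p => tame A T ℓ p) (fun p hp hp1 _ => ?_) N hA.2.1 s hA.1 f hA.2.2
    have h3 := htame p hp ℓ ((hLmem ℓ).1 hℓ).1 (hpow ℓ hℓ p hp1).1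
    rwa [← Nat.card_coe_set_eq] at h3
  refine ⟨bad₁ ∪ L.biUnion bad, ?_, ?_, fun S hS hS2 => ?_⟩
  · refine Finset.union_subset ?_ (Finset.biUnion_subset.2 fun ℓ _ => ?_)
    · rw [hbad₁]; exact Finset.filter_subset _ _
    · rw [hbad]; exact Finset.filter_subset _ _
  · obtain ⟨W, hW⟩ : ∃ W : ℝ, W = (K.choose r : ℝ) ^ d := ⟨_, rfl⟩
    have hW0 : 0 ≤ W := by rw [hW]; positivity
    rw [← hW] at hb1 hb2 ⊢
    have h3 : ((L.biUnion bad).card : ℝ) ≤ (K : ℝ) ^ (-(B + 1)) * W := by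
      have h4 : ((L.biUnion bad).card : ℝ) ≤ ∑ ℓ ∈ L, ((bad ℓ).card : ℝ) := by
        exact_mod_cast Finset.card_biUnion_le
      refine h4.trans ((Finset.sum_le_sum hb2).trans ?_)
      rw [Finset.sum_const, nsmul_eq_mul, ← mul_assoc]
      refine mul_le_mul_of_nonneg_right ?_ hW0
      calc (L.card : ℝ) * (K : ℝ) ^ (-(B + 1 + δ * a)) ≤ (K : ℝ) ^ (δ * a) * (K : ℝ) ^ (-(B + 1 + δ * a)) :=
            mul_le_mul_of_nonneg_right hLcard (by positivity)
        _ = (K : ℝ) ^ (-(B + 1)) := by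
            rw [← Real.rpow_add hK0]
            congr 1
            ring
    have h5 : ((bad₁ ∪ L.biUnion bad).card : ℝ) ≤ (bad₁.card : ℝ) + ((L.biUnion bad).card : ℝ) := by
      exact_mod_cast Finset.card_union_le _ _
    have h6 : (K : ℝ) ^ (-B) = K * (K : ℝ) ^ (-(B + 1)) := by
      nth_rw 2 [← Real.rpow_one (K : ℝ)]
      rw [← Real.rpow_add hK0]
      congr 1
      ring
    rw [h6]
    have h7 : 0 ≤ (K : ℝ) ^ (-(B + 1)) * W := by positivity
    have h8 : 2 * ((K : ℝ) ^ (-(B + 1)) * W) ≤ K * ((K : ℝ) ^ (-(B + 1)) * W) :=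
      mul_le_mul_of_nonneg_right hK2 h7
    linarith
  · rw [Finset.mem_union, not_or] at hS2
    have h3 : 1 < Set.ncard {p : ℕ | P p ∧ (p : ℝ) ≤ (K : ℝ) ^ δ ∧
        red p (changed b K s N f S) ∈ A.good p} := by
      by_contra hcon
      apply hS2.1
      rw [hbad₁, Finset.mem_filter]
      exact ⟨hS, not_lt.1 hcon⟩
    have hfin : {p : ℕ | P p ∧ (p : ℝ) ≤ (K : ℝ) ^ δ ∧ red p (changed b K s N f S) ∈ A.good p}.Finite := by
      refine (Set.finite_Iic ⌊(K : ℝ) ^ δ⌋₊).subset fun p hp => ?_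
      exact Nat.le_floor hp.2.1
    obtain ⟨p, hp, q, hq, hpq⟩ := (Set.one_lt_ncard hfin).1 h3
    refine ⟨A.mem p (hgood p hp.1).1 _ hp.2.2, torsion_of A T _ ((K : ℝ) ^ (δ * a)) ?_ fun ℓ hℓ hℓX => ?_⟩
    · have hN : ∀ p : ℕ, P p → (p : ℝ) ≤ (K : ℝ) ^ δ → red p (changed b K s N f S) ∈ A.good p →
          (A.N p (red p (changed b K s N f S)) : ℝ) ≤ (K : ℝ) ^ (δ * a) := by
        intro p hp hpK hg
        refine ((hgood p hp).2.2 _ hg).trans ?_
        rw [Real.rpow_mul hK0.le]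
        exact Real.rpow_le_rpow (Nat.cast_nonneg p) hpK ha.le
      exact ⟨p, q, (hgood p hp.1).1, (hgood q hq.1).1, hpq, hp.2.2, hq.2.2, hN p hp.1 hp.2.1 hp.2.2,
        hN q hq.1 hq.2.1 hq.2.2⟩
    · have hℓL : ℓ ∈ L := (hLmem ℓ).2 ⟨hℓ, hℓX⟩
      have h4 : ¬ Set.ncard {p : ℕ | P p ∧ (K : ℝ) ^ ((1 : ℝ) * θ / 4) < p ∧ (p : ℝ) ≤ (K : ℝ) ^ (1 : ℝ) ∧
          red p (changed b K s N f S) ∈ tame A T ℓ p} ≤ 0 := by
        intro hcon
        apply hS2.2
        rw [Finset.mem_biUnion]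
        refine ⟨ℓ, hℓL, ?_⟩
        rw [hbad, Finset.mem_filter]
        exact ⟨hS, hcon⟩
      obtain ⟨p', hp'⟩ := Set.nonempty_of_ncard_ne_zero (fun h => h4 (le_of_eq h))
      exact ⟨p', (hgood p' hp'.1).1, (hpow ℓ hℓL p' hp'.2.1).2.ne', hp'.2.2.2⟩

end Pool.Agent.Results.MP_160b6c_nt.FewDigitMembers
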