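import Pool.Agent.Q19.SU.Prod

/-!
# MP_160b6c_nt: torsion of all abelian varieties isogenous to products of elliptic curves, for almost
all invariants of all heights

Let `K` be a number field of degree `d`. The invariants `j ≠ 0, 1728` in `K`, of ALL heights, are
ordered by the product `radical j` of the norms of the primes (not dividing six) at which `j` reduces
to `0`, `1728` or `∞`; there are `X ^ (2 / 3 + o(1))` with `radical j ≤ X`. There is a set `G ⊆ K` which
contains all but a proportion `X ^ (-ν)` of them, such that for EVERY `g`, EVERY `g` elliptic curves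
`E_1, ..., E_g` over `K` with invariants in `G` (all twists, isogenous or not) and EVERY abelian variety
`A` over `K` which is isogenous over `K` to `E_1 × ... × E_g`:

* `A` has no torsion over `K`, nor over any abelian extension of `K` (of whatever degree);
* for every finite extension `M` of `K` of degree `D` (`(2 D) ^ d ≤ H(j(E_i)) ^ (1 - t)` for all `i`)
  the order `n` of every torsion point of `A(M)` satisfies `n ^ 2 ≤ (2 D) ^ g`, and its prime factors
  `p` satisfy `p ^ 2 ≤ 2 D`.

So the order of a torsion point of a `g`-dimensional `A` of this kind over a field of relative degree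
`D` is at most `(2 D) ^ (g / 2)`, whatever the isogeny and its degree.

Proof. For almost all `j` the image of the Galois group in the automorphism group of `E[n]` contains
all automorphisms of determinant `1`, for all curves `E` of invariant `j`, all primes `n` and all `n`
with `n ^ d ≤ H(j) ^ (1 - t)` (engine `Pool.Agent.Q19.SU`; see MP_cda23d_nt.AllInvariantsAllPrimes). The
finite stable subgroups of `E(K̄)` are then the kernels of the integers, and the conjugates of a point
of order `n` are at least `n ^ 2 / 2`; and there is a commutator in `SL₂(ℤ/p)`, of trace `3`, which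
fixes no point of `E[p]` except `0`. For a quotient of a product of curves one projects to the
factors one after the other: if `n x` agrees with an element `γ` of the kernel in the first factors,
the next coordinate of `n x - γ` is a point over `M` of a quotient of the next curve.
-/

set_option autoImplicit false

open NumberField IsDedekindDomain
open scoped Classical

namespace Pool.Agent.Results.MP_160b6c_nt.ProductsAllHeights

/-- The curve `y² = x³ + Ax + B` over `K`. -/
def curve {K : Type} [Field K] (A B : K) : WeierstrassCurve K := ⟨0, 0, 0, A, B⟩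

/-- The group of its points over the algebraic closure of `K`. -/
abbrev Points {K : Type} [Field K] (A B : K) : Type :=
  ((curve A B).baseChange (AlgebraicClosure K)).toAffine.Point

/-- The action of an automorphism `σ` of the algebraic closure over `K` on the points. -/
noncomputable def galois {K : Type} [Field K] (A B : K)
    (σ : AlgebraicClosure K ≃ₐ[K] AlgebraicClosure K) : Points A B →+ Points A B :=
  WeierstrassCurve.Affine.Point.map (σ : AlgebraicClosure K →ₐ[K] AlgebraicClosure K)

/-- The invariant of `y² = x³ + Ax + B`. -/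
noncomputable def jInvariant {K : Type} [Field K] (A B : K) : K :=
  6912 * A ^ 3 / (4 * A ^ 3 + 27 * B ^ 2)

/-- the product of the norms of the primes not dividing six at which `j` reduces to `0`, `1728` or
`∞` -/
noncomputable def radical {K : Type} [Field K] [NumberField K] (j : K) : ℝ :=
  ∏ᶠ v ∈ {v : HeightOneSpectrum (𝓞 K) | v.valuation K 6 = 1 ∧
    (v.valuation K j ≠ 1 ∨ v.valuation K (j - 1728) ≠ 1)}, (Ideal.absNorm v.asIdeal : ℝ)

/-- the invariants `j ≠ 0, 1728`, of whatever height, with `radical j ≤ X` -/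
def Invariants (K : Type) [Field K] [NumberField K] (X : ℝ) : Set K :=
  {j | j ≠ 0 ∧ j ≠ 1728 ∧ radical j ≤ X}

/-- The points over the algebraic closure of the product of the `g` curves
`E_i : y² = x³ + A_i x + B_i`. -/
abbrev ProductPoints {K : Type} [Field K] {g : ℕ} (A B : Fin g → K) : Type :=
  ∀ i : Fin g, Points (A i) (B i)

/-- The kernels of the isogenies over `K` from the product: the finite subgroups of the group of
points over the algebraic closure which are stable under the Galois group. -/
def IsKernel {K : Type} [Field K] {g : ℕ} (A B : Fin g → K) (Γ : AddSubgroup (ProductPoints A B)) :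
    Prop :=
  (Γ : Set (ProductPoints A B)).Finite ∧
    ∀ (σ : AlgebraicClosure K ≃ₐ[K] AlgebraicClosure K) (x : ProductPoints A B), x ∈ Γ →
      (fun i => galois (A i) (B i) σ (x i)) ∈ Γ

/-- The class of `x` modulo `Γ` is a point over `M` of the quotient of the product by `Γ`: it is fixed
by the automorphisms which fix `M`. -/
def IsPointOver {K : Type} [Field K] {g : ℕ} (A B : Fin g → K) (Γ : AddSubgroup (ProductPoints A B))
    (M : IntermediateField K (AlgebraicClosure K)) (x : ProductPoints A B) : Prop :=
  ∀ σ : AlgebraicClosure K ≃ₐ[K] AlgebraicClosure K, (∀ z ∈ M, σ z = z) →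
    (fun i => galois (A i) (B i) σ (x i) - x i) ∈ Γ

/-- For all `g` and all elliptic curves `E_1, ..., E_g` over `K` with invariants in `G`, and all
quotients of `E_1 × ... × E_g` by a finite subgroup `Γ` stable under the Galois group: (a) the quotient
has no torsion point except `0` over any abelian extension `M` of `K`, of finite or infinite degree (in
particular over `M = K`); (b) for every finite extension `M` of `K` with
`(2 [M : K]) ^ [K : ℚ] ≤ H(j(E_i)) ^ (1 - t)` for all `i` the order `n` of a torsion point over `M`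
satisfies `n ^ 2 ≤ (2 [M : K]) ^ g`, and `p ^ 2 ≤ 2 [M : K]` for its prime factors `p`. -/
def SmallTorsion {K : Type} [Field K] [NumberField K] (t : ℝ) (G : Set K) : Prop :=
  ∀ (g : ℕ) (A B : Fin g → K), (∀ i, 4 * A i ^ 3 + 27 * B i ^ 2 ≠ 0) →
    (∀ i, jInvariant (A i) (B i) ∈ G) →
    ∀ Γ : AddSubgroup (ProductPoints A B), IsKernel A B Γ →
      (∀ M : IntermediateField K (AlgebraicClosure K), Normal K M →
        (∀ σ τ : M ≃ₐ[K] M, σ * τ = τ * σ) →
        ∀ x : ProductPoints A B, IsPointOver A B Γ M x →
          IsOfFinAddOrder (x : ProductPoints A B ⧸ Γ) → x ∈ Γ) ∧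
      ∀ M : IntermediateField K (AlgebraicClosure K), FiniteDimensional K M →
        (∀ i, ((2 * Module.finrank K M : ℕ) : ℝ) ^ Module.finrank ℚ K ≤
          Height.mulHeight₁ (jInvariant (A i) (B i)) ^ (1 - t)) →
        ∀ x : ProductPoints A B, IsPointOver A B Γ M x →
          IsOfFinAddOrder (x : ProductPoints A B ⧸ Γ) →
            addOrderOf (x : ProductPoints A B ⧸ Γ) ^ 2 ≤ (2 * Module.finrank K M) ^ g ∧
            ∀ p : ℕ, p.Prime → p ∣ addOrderOf (x : ProductPoints A B ⧸ Γ) →
              p ^ 2 ≤ 2 * Module.finrank K M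

theorem inv_eq (K : Type) [Field K] [NumberField K] (X : ℝ) :
    Invariants K X = Pool.Agent.Q19.JL.Iv K X := by
  ext j
  constructor
  · rintro ⟨h0, h1, h2⟩
    refine ⟨h0, h1, ?_⟩
    rw [← Pool.Agent.Q19.JL.rad_eq h0 h1]
    exact h2
  · rintro ⟨h0, h1, h2⟩
    refine ⟨h0, h1, ?_⟩
    rw [← Pool.Agent.Q19.JL.rad_eq h0 h1] at h2
    exact h2

/-- a class of finite order is the class of a torsion point -/
theorem tors_of {K : Type} [Field K] {g : ℕ} {A B : Fin g → K}
    {Γ : AddSubgroup (ProductPoints A B)} (hfin : (Γ : Set (ProductPoints A B)).Finite)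
    {x : ProductPoints A B} (hx : IsOfFinAddOrder (x : ProductPoints A B ⧸ Γ)) :
    ∃ m : ℕ, 0 < m ∧ m • x = 0 := by
  have : Finite Γ := hfin.to_subtype
  obtain ⟨n, hn⟩ : ∃ n, n = addOrderOf (x : ProductPoints A B ⧸ Γ) := ⟨_, rfl⟩
  have hn0 : 0 < n := hn ▸ hx.addOrderOf_pos
  have h1 : n • x ∈ Γ := by
    rw [← QuotientAddGroup.eq_zero_iff, QuotientAddGroup.mk_nsmul, hn]
    exact addOrderOf_nsmul_eq_zero _
  have h2 : Nat.card Γ • (⟨n • x, h1⟩ : Γ) = 0 := card_nsmul_eq_zero'
  have h3 : Nat.card Γ • (n • x) = 0 := congrArg Subtype.val h2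
  exact ⟨Nat.card Γ * n, Nat.mul_pos Nat.card_pos hn0, by rw [mul_nsmul']; exact h3⟩

theorem small_of {K : Type} [Field K] [NumberField K] {t : ℝ} {G : Set K}
    (hG : ∀ j ∈ G, Pool.Agent.Q19.SU.AllSLn t j) : SmallTorsion t G := by
  intro g A B hD hj Γ hΓ
  obtain ⟨hfin, hst⟩ := hΓ
  refine ⟨fun M hM hab x hx hfo => ?_, fun M hM hM2 x hx hfo => ?_⟩
  · obtain ⟨γ, hγ, hγS⟩ := Pool.Agent.Q19.SU.ab_prod (t := t) hD (fun i => hG _ (hj i)) Γ hfin hst
      (fun σ τ => hx (σ * τ * σ⁻¹ * τ⁻¹) fun z hz => Pool.Agent.Q19.SU.comm_fix M hab σ τ hz)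
      (tors_of hfin hfo) Finset.univ
    have : x = γ := funext fun i => hγS i (Finset.mem_univ i)
    rw [this]
    exact hγ
  · obtain ⟨n, hn, hn2, hnp, γ, hγ, hγS⟩ := Pool.Agent.Q19.SU.tors_prod (t := t) hD
      (fun i => hG _ (hj i)) Γ hfin hst M hM2
      (fun σ hσ => hx σ ((IntermediateField.mem_fixingSubgroup_iff M σ).1 hσ))
      (tors_of hfin hfo) Finset.univ
    have h1 : n • x ∈ Γ := by
      have : n • x = γ := funext fun i => hγS i (Finset.mem_univ i)
      rw [this]
      exact hγ
    have h2 : addOrderOf (x : ProductPoints A B ⧸ Γ) ∣ n := by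
      apply addOrderOf_dvd_of_nsmul_eq_zero
      rw [← QuotientAddGroup.mk_nsmul, QuotientAddGroup.eq_zero_iff]
      exact h1
    rw [Finset.card_univ, Fintype.card_fin] at hn2
    exact ⟨(Nat.pow_le_pow_left (Nat.le_of_dvd hn h2) 2).trans hn2,
      fun p hp hpd => hnp p hp (hpd.trans h2)⟩

/-- **Theorem.** (1) There are `X ^ (2 / 3 + o(1))` invariants, of all heights, with
`radical j ≤ X`. (2) For all `t > 0` there is a set `G` which contains all but a power-saving
proportion of them, such that all abelian varieties isogenous to products of elliptic curves with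
invariants in `G` have no torsion over abelian extensions of `K`, and torsion of small order over all
extensions. -/
theorem result (K : Type) [Field K] [NumberField K] :
    (∀ δ : ℝ, 0 < δ → ∃ X₀ : ℝ, ∀ X : ℝ, X₀ ≤ X → (Invariants K X).Finite ∧
      X ^ (2 / 3 - δ) ≤ ((Invariants K X).ncard : ℝ) ∧
      ((Invariants K X).ncard : ℝ) ≤ X ^ (2 / 3 + δ)) ∧
    ∀ t : ℝ, 0 < t → ∃ G : Set K,
      (∃ ν X₀ : ℝ, 0 < ν ∧ ∀ X : ℝ, X₀ ≤ X →
        (({j | j ∈ Invariants K X ∧ j ∉ G} : Set K).ncard : ℝ) ≤
          X ^ (-ν) * (Invariants K X).ncard) ∧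
      SmallTorsion t G := by
  refine ⟨fun δ hδ => ?_, fun t ht => ?_⟩
  · obtain ⟨X1, hX1, h1⟩ := Pool.Agent.Q19.JL.Iv_upper K δ hδ
    obtain ⟨X2, hX2, h2⟩ := Pool.Agent.Q19.JL.Iv_lower K δ hδ
    refine ⟨max X1 X2, fun X hX => ?_⟩
    rw [inv_eq]
    exact ⟨Pool.Agent.Q19.JL.Iv_fin K (hX1.trans ((le_max_left _ _).trans hX)),
      h2 X ((le_max_right _ _).trans hX), h1 X ((le_max_left _ _).trans hX)⟩
  · refine ⟨{j | Pool.Agent.Q19.SU.AllSLn t j}, ?_, small_of fun j hj => hj⟩
    obtain ⟨ν, X₀, hν, -, h⟩ := Pool.Agent.Q19.SU.n_prop K t 0 ht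
    refine ⟨ν, X₀, hν, fun X hX => ?_⟩
    rw [inv_eq]
    exact h X hX _ (fun j hj => hj.1) fun j hj hcon => hj.2 hcon.1

end Pool.Agent.Results.MP_160b6c_nt.ProductsAllHeights
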