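import Pool.Agent.Q229.RAW
import Pool.Agent.Results.MP_160b6c_nt.ProductsAllHeights

/-!
# MP_160b6c_nt: torsion of all abelian varieties isogenous to products of elliptic curves whose invariants are good approximations of almost arbitrary numbers

`ProductsAllHeights` (helper19) shows that all abelian varieties isogenous over a number field `K` to a product of elliptic
curves with invariants in a set `G ⊆ K`, which contains almost all `j ∈ K` in the order by radicals, have no torsion over
abelian extensions of `K` and only small torsion over all other extensions (`SmallTorsion t G`).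

Let `H(j)` be the multiplicative height relative to `K`. Almost every complex (real) number `z` has infinitely many
approximations `j` in a given number field `K ⊆ ℂ` (`K ⊆ ℝ`) with `|j - z| ≤ H(j)^(-τ)` for `τ < 1` (`τ < 2`), and only
finitely many for `τ > 1` (`τ > 2`). We show: there are sets `G(K, t)` of invariants such that `SmallTorsion t (G K t)` holds
for all number fields `K` and `t > 0`, and such that for almost every complex number `z` (every real number), for EVERY
number field `K ⊆ ℂ` and all `t > 0`, the set `G(K, t)` contains ALL but finitely many of the `j ∈ K` with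
`|j - z| ≤ H(j)^(-1)` (`H(j)^(-2)`). So the products can be formed with invariants near different numbers `z_1, …, z_g`.
Moreover, for every metric space `M` and every map `φ : K → M`, for instance the embedding in a completion of `K`, the points
`z` of `M` with infinitely many `j ∉ G(K, t)` with `dist(φ(j), z) ≤ H(j)^(-τ)` form a set of Hausdorff dimension at most
`σ / τ`, `σ = σ(K, t) < 2`.
-/

set_option autoImplicit false

namespace Pool.Agent.Results.MP_160b6c_nt.GoodApproximations

open NumberField MeasureTheory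
open Pool.Agent.Results.MP_160b6c_nt.ProductsAllHeights (SmallTorsion)

theorem small_mono {K : Type} [Field K] [NumberField K] {t t' : ℝ} (h : t' ≤ t) {G : Set K} (hG : SmallTorsion t' G) :
    SmallTorsion t G := by
  intro g A B hD hj Γ hΓ
  obtain ⟨h1, h2⟩ := hG g A B hD hj Γ hΓ
  refine ⟨h1, fun M hM hM2 x hx hfo => h2 M hM (fun i => (hM2 i).trans ?_) x hx hfo⟩
  exact Real.rpow_le_rpow_of_exponent_le (Height.one_le_mulHeight₁ _) (by linarith)

theorem step (K : Type) [Field K] [NumberField K] (n : ℕ) : ∃ G : Set K,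
    (∃ s C T₀ : ℝ, s < 2 * (1 : ℝ) ∧ ∀ T : ℝ, T₀ ≤ T → {j | j ∈ Gᶜ ∧ Height.mulHeight₁ j ≤ T}.Finite ∧
      ({j | j ∈ Gᶜ ∧ Height.mulHeight₁ j ≤ T}.ncard : ℝ) ≤ C * T ^ s) ∧ SmallTorsion (1 / ((n : ℝ) + 1)) G := by
  obtain ⟨G, ⟨ν, X₀, hν, h1⟩, h2⟩ := (ProductsAllHeights.result K).2 (1 / ((n : ℝ) + 1)) (by positivity)
  obtain ⟨s, C, T₀, h3, h4⟩ := Pool.Agent.Q229.RAW.count K Gᶜ ⟨ν, X₀, hν, fun X hX => by
    have := h1 X hX
    rw [ProductsAllHeights.inv_eq] at this
    exact this⟩
  exact ⟨G, ⟨s, C, T₀, by linarith, h4⟩, h2⟩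

/-- There are sets `G(K, t)` of elements of `K`, for all number fields `K` and real `t`, such that for `t > 0`:
(0) `SmallTorsion t (G K t)`;
(1) for every `K` and `t` there is `σ < 2` such that for every metric space `M`, every map `φ : K → M` and every `τ > 0` the
points `z` with infinitely many `j ∉ G(K, t)` with `dist(φ(j), z) ≤ H(j)^(-τ)` form a set of dimension at most `σ / τ`;
(2) for almost every complex number `z`, for every number field `K ⊆ ℂ` and all `t`, `G(K, t)` contains all but finitely many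
of the `j ∈ K` with `|j - z| ≤ H(j)^(-1)`;
(3) for almost every real number `x` the same holds with `|j - x| ≤ H(j)^(-2)`. -/
theorem result : ∃ G : ∀ (K : Type) [Field K] [NumberField K], ℝ → Set K,
    (∀ (K : Type) [Field K] [NumberField K] (t : ℝ), 0 < t → SmallTorsion t (G K t)) ∧
    (∀ (K : Type) [Field K] [NumberField K] (t : ℝ), 0 < t → ∃ σ : ℝ, σ < 2 ∧
      ∀ (M : Type) [MetricSpace M] (φ : K → M) (τ : ℝ), 0 < τ →
        dimH {z : M | {j : K | j ∉ G K t ∧ dist (φ j) z ≤ Height.mulHeight₁ j ^ (-τ)}.Infinite} ≤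
          ENNReal.ofReal (σ / τ)) ∧
    (∀ᵐ z : ℂ, ∀ (K : IntermediateField ℚ ℂ) [NumberField K] (t : ℝ), 0 < t →
      {j : K | j ∉ G K t ∧ ‖(j : ℂ) - z‖ ≤ Height.mulHeight₁ j ^ (-(1 : ℝ))}.Finite) ∧
    (∀ᵐ x : ℝ, ∀ (K : IntermediateField ℚ ℂ) [NumberField K] (t : ℝ), 0 < t →
      {j : K | j ∉ G K t ∧ ‖(j : ℂ) - x‖ ≤ Height.mulHeight₁ j ^ (-(2 : ℝ))}.Finite) := by
  refine ⟨fun K _ _ t => (step K ⌈1 / t⌉₊).choose, ?_, ?_, ?_, ?_⟩
  · intro K _ _ t ht
    have h1 := (step K ⌈1 / t⌉₊).choose_spec.2
    refine small_mono ?_ h1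
    have h2 : 1 / t ≤ (⌈1 / t⌉₊ : ℝ) := Nat.le_ceil _
    rw [div_le_iff₀ ht] at h2
    rw [div_le_iff₀ (by positivity)]
    linarith
  · intro K _ _ t ht
    obtain ⟨s, C, T₀, h1, h2⟩ := (step K ⌈1 / t⌉₊).choose_spec.1
    exact ⟨s, by linarith, fun M _ φ τ hτ => Pool.Agent.Q229.RAH.dim φ _ Height.mulHeight₁
      (Pool.Agent.Q229.RAF2.up h2) τ hτ⟩
  · have h1 := Pool.Agent.Q229.RAF2.complex (fun K _ _ n => ((step K n).choose)ᶜ)
      (fun K _ _ x => Height.mulHeight₁ x) (fun K _ _ => 1) (fun K _ _ n => (step K n).choose_spec.1)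
      (fun K _ _ => one_pos)
    filter_upwards [h1] with z hz K hK t ht
    exact hz K ⌈1 / t⌉₊
  · have h1 := Pool.Agent.Q229.RAF2.real (fun K _ _ n => ((step K n).choose)ᶜ)
      (fun K _ _ x => Height.mulHeight₁ x) (fun K _ _ => 1) (fun K _ _ n => (step K n).choose_spec.1)
      (fun K _ _ => one_pos)
    filter_upwards [h1] with z hz K hK t ht
    refine (hz K ⌈1 / t⌉₊).subset fun j hj => ⟨hj.1, ?_⟩
    have h2 := hj.2
    rwa [mul_one]

end Pool.Agent.Results.MP_160b6c_nt.GoodApproximations
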