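import Pool.Agent.Q19.SU.Tor

/-!
# MP_160b6c_nt: torsion of all abelian varieties isogenous to powers of elliptic curves, for almost all
invariants of all heights

Let `K` be a number field of degree `d`. The invariants `j ≠ 0, 1728` in `K`, of ALL heights, are
ordered by the product `radical j` of the norms of the primes (not dividing six) at which `j` reduces
to `0`, `1728` or `∞`; there are `X ^ (2 / 3 + o(1))` with `radical j ≤ X`. All but a proportion
`X ^ (-ν)` of them have the following property, for EVERY elliptic curve `E` over `K` of invariant `j`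
(all twists), EVERY `g` and EVERY abelian variety `A` over `K` which is isogenous over `K` to `E ^ g`:

* `A` is isomorphic to `E ^ g` over `K`: the kernel `Γ` of `E ^ g → A` is the kernel of an integral
  matrix;
* `A(K)` has no torsion, and for every finite extension `M` of `K` of degree `D` with
  `(2 D) ^ d ≤ H(j) ^ (1 - t)` every torsion point of `A(M)` has an order `n` with `n ^ 2 ≤ 2 D`.

The bound is uniform in `g` and is best possible up to the constant: every curve has points of order
`n` over an extension of degree less than `n ^ 2`.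

Proof. For almost all `j` the image of the Galois group in the automorphism group of `E[n]` contains
all automorphisms of determinant `1`, for all curves `E` of invariant `j`, all primes `n` and all `n`
with `n ^ d ≤ H(j) ^ (1 - t)` (engine `Pool.Agent.Q19.SU`; see MP_cda23d_nt.AllInvariantsAllPrimes). A
finite stable subgroup of `E(K̄) ^ g` is then the kernel of an integral matrix, by induction on its
order: if it has an element of order `p`, it contains `E[p] ⊗ w` for a primitive integral vector `w`,
and one divides by it. The conjugates of a point of order `n` are all points of order `n`; at least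
`n ^ 2 / 2`. A torsion point of large order has a multiple whose order is either a prime, or lies
between `(2 D) ^ (1 / 2)` and `2 D`.
-/

set_option autoImplicit false

open NumberField IsDedekindDomain
open scoped Classical

namespace Pool.Agent.Results.MP_160b6c_nt.PowersAllHeights

/-- The curve `y² = x³ + Ax + B` over `K`. -/
def curve {K : Type} [Field K] (A B : K) : WeierstrassCurve K := ⟨0, 0, 0, A, B⟩

/-- The group of its points over the algebraic closure of `K`. -/
abbrev Points {K : Type} [Field K] (A B : K) : Type :=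
  ((curve A B).baseChange (AlgebraicClosure K)).toAffine.Point

/-- The action of an automorphism `σ` of the algebraic closure over `K` on the points. -/
noncomputable def galois {K : Type} [Field K] (A B : K)
    (σ : AlgebraicClosure K ≃ₐ[K] AlgebraicClosure K) : Points A B →+ Points A B :=
  WeierstrassCurve.Affine.Point.map (σ : AlgebraicClosure K →ₐ[K] AlgebraicClosure K)

/-- The invariant of `y² = x³ + Ax + B`. -/
noncomputable def jInvariant {K : Type} [Field K] (A B : K) : K :=
  6912 * A ^ 3 / (4 * A ^ 3 + 27 * B ^ 2)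

/-- the product of the norms of the primes not dividing six at which `j` reduces to `0`, `1728` or
`∞` -/
noncomputable def radical {K : Type} [Field K] [NumberField K] (j : K) : ℝ :=
  ∏ᶠ v ∈ {v : HeightOneSpectrum (𝓞 K) | v.valuation K 6 = 1 ∧
    (v.valuation K j ≠ 1 ∨ v.valuation K (j - 1728) ≠ 1)}, (Ideal.absNorm v.asIdeal : ℝ)

/-- the invariants `j ≠ 0, 1728`, of whatever height, with `radical j ≤ X` -/
def Invariants (K : Type) [Field K] [NumberField K] (X : ℝ) : Set K :=
  {j | j ≠ 0 ∧ j ≠ 1728 ∧ radical j ≤ X}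

/-- The kernels of the isogenies over `K` from `E ^ g`: the finite subgroups of the group of points
over the algebraic closure which are stable under the Galois group. -/
def IsKernel {K : Type} [Field K] (A B : K) {g : ℕ} (Γ : AddSubgroup (Fin g → Points A B)) : Prop :=
  (Γ : Set (Fin g → Points A B)).Finite ∧
    ∀ (σ : AlgebraicClosure K ≃ₐ[K] AlgebraicClosure K) (x : Fin g → Points A B), x ∈ Γ →
      (fun i => galois A B σ (x i)) ∈ Γ

/-- The class of `x` modulo `Γ` is a point over `M` of the quotient of `E ^ g` by `Γ`: it is fixed by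
the automorphisms which fix `M`. -/
def IsPointOver {K : Type} [Field K] (A B : K) {g : ℕ} (Γ : AddSubgroup (Fin g → Points A B))
    (M : IntermediateField K (AlgebraicClosure K)) (x : Fin g → Points A B) : Prop :=
  ∀ σ : AlgebraicClosure K ≃ₐ[K] AlgebraicClosure K, (∀ z ∈ M, σ z = z) →
    (fun i => galois A B σ (x i) - x i) ∈ Γ

/-- For every `E : y² = x³ + Ax + B` of invariant `j`, every `g` and every quotient `E ^ g / Γ`, `Γ`
finite and stable under the Galois group: (a) `Γ` is the kernel of an integral matrix of nonzero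
determinant; (b) the quotient has no torsion point over `K` except `0`; (c) for every finite extension
`M` of `K` with `(2 [M : K]) ^ [K : ℚ] ≤ H(j) ^ (1 - t)` the order `n` of a torsion point over `M`
satisfies `n ^ 2 ≤ 2 [M : K]` (`addOrderOf` is `0` for points of infinite order). -/
def SmallTorsion {K : Type} [Field K] [NumberField K] (t : ℝ) (j : K) : Prop :=
  ∀ A B : K, 4 * A ^ 3 + 27 * B ^ 2 ≠ 0 → jInvariant A B = j →
    ∀ (g : ℕ) (Γ : AddSubgroup (Fin g → Points A B)), IsKernel A B Γ →
      (∃ N : Matrix (Fin g) (Fin g) ℤ, N.det ≠ 0 ∧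
        ∀ x : Fin g → Points A B, x ∈ Γ ↔ ∀ i, ∑ k, N i k • x k = 0) ∧
      (∀ x : Fin g → Points A B, IsPointOver A B Γ ⊥ x →
        IsOfFinAddOrder (x : (Fin g → Points A B) ⧸ Γ) → x ∈ Γ) ∧
      ∀ M : IntermediateField K (AlgebraicClosure K), FiniteDimensional K M →
        ((2 * Module.finrank K M : ℕ) : ℝ) ^ Module.finrank ℚ K ≤ Height.mulHeight₁ j ^ (1 - t) →
        ∀ x : Fin g → Points A B, IsPointOver A B Γ M x →
          addOrderOf (x : (Fin g → Points A B) ⧸ Γ) ^ 2 ≤ 2 * Module.finrank K M

theorem inv_eq (K : Type) [Field K] [NumberField K] (X : ℝ) :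
    Invariants K X = Pool.Agent.Q19.JL.Iv K X := by
  ext j
  constructor
  · rintro ⟨h0, h1, h2⟩
    refine ⟨h0, h1, ?_⟩
    rw [← Pool.Agent.Q19.JL.rad_eq h0 h1]
    exact h2
  · rintro ⟨h0, h1, h2⟩
    refine ⟨h0, h1, ?_⟩
    rw [← Pool.Agent.Q19.JL.rad_eq h0 h1] at h2
    exact h2

theorem small_of {K : Type} [Field K] [NumberField K] {t : ℝ} (ht1 : t < 1) {j : K}
    (h : Pool.Agent.Q19.SU.AllSLn t j)
    (h' : Module.finrank ℚ K * Real.log 2 / (1 - t) ≤ Pool.Agent.W223.AK.ht j) :
    SmallTorsion t j := by
  intro A B hD hj g Γ hΓ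
  obtain ⟨hfin, hst⟩ := hΓ
  have key : ∀ M : IntermediateField K (AlgebraicClosure K), FiniteDimensional K M →
      ((2 * Module.finrank K M : ℕ) : ℝ) ^ Module.finrank ℚ K ≤ Height.mulHeight₁ j ^ (1 - t) →
      ∀ x : Fin g → Points A B, IsPointOver A B Γ M x →
        addOrderOf (x : (Fin g → Points A B) ⧸ Γ) ^ 2 ≤ 2 * Module.finrank K M := by
    intro M hM hM2 x hx
    refine Pool.Agent.Q19.SU.tors_quot h hD hj Γ hfin hst M hM2 ?_
    intro σ hσ
    exact hx σ ((IntermediateField.mem_fixingSubgroup_iff M σ).1 hσ)
  refine ⟨?_, ?_, key⟩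
  · obtain ⟨N, hN, hN2⟩ := Pool.Agent.Q19.SU.ker_matrix h hD hj Γ hfin hst
    refine ⟨N, hN, fun x => ?_⟩
    refine (hN2 x).trans ?_
    constructor
    · intro h1 i
      exact congrFun h1 i
    · intro h1
      funext i
      exact h1 i
  · intro x hx hfo
    have h1 := key ⊥ inferInstance (by
      rw [IntermediateField.finrank_bot, mul_one]
      have hH : 0 < Height.mulHeight₁ j := Height.mulHeight₁_pos j
      have h2 : Real.log (Height.mulHeight₁ j) = Pool.Agent.W223.AK.ht j := by
        rw [← Pool.Agent.Q19.SU.logH]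
        rfl
      rw [← Real.log_le_log_iff (by positivity) (by positivity), Real.log_pow,
        Real.log_rpow hH, h2]
      push_cast
      rw [div_le_iff₀ (by linarith)] at h'
      linarith) x hx
    rw [IntermediateField.finrank_bot] at h1
    have h2 : 0 < addOrderOf (x : (Fin g → Points A B) ⧸ Γ) := hfo.addOrderOf_pos
    have h3 : addOrderOf (x : (Fin g → Points A B) ⧸ Γ) = 1 := by nlinarith
    rw [AddMonoid.addOrderOf_eq_one_iff, QuotientAddGroup.eq_zero_iff] at h3
    exact h3

/-- **Theorem.** (1) There are `X ^ (2 / 3 + o(1))` invariants, of all heights, with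
`radical j ≤ X`. (2) For all `0 < t < 1` and all but a power-saving proportion of them the property
`SmallTorsion t j` holds: all abelian varieties isogenous to a power `E ^ g` of a curve of invariant
`j` are isomorphic to `E ^ g`, have no torsion over `K`, and the order `n` of their torsion points over
an extension of degree `D` satisfies `n ^ 2 ≤ 2 D`. -/
theorem result (K : Type) [Field K] [NumberField K] :
    (∀ δ : ℝ, 0 < δ → ∃ X₀ : ℝ, ∀ X : ℝ, X₀ ≤ X → (Invariants K X).Finite ∧
      X ^ (2 / 3 - δ) ≤ ((Invariants K X).ncard : ℝ) ∧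
      ((Invariants K X).ncard : ℝ) ≤ X ^ (2 / 3 + δ)) ∧
    ∀ t : ℝ, 0 < t → t < 1 → ∃ ν X₀ : ℝ, 0 < ν ∧ ∀ X : ℝ, X₀ ≤ X →
      (({j | j ∈ Invariants K X ∧ ¬ SmallTorsion t j} : Set K).ncard : ℝ) ≤
        X ^ (-ν) * (Invariants K X).ncard := by
  refine ⟨fun δ hδ => ?_, fun t ht ht1 => ?_⟩
  · obtain ⟨X1, hX1, h1⟩ := Pool.Agent.Q19.JL.Iv_upper K δ hδ
    obtain ⟨X2, hX2, h2⟩ := Pool.Agent.Q19.JL.Iv_lower K δ hδ
    refine ⟨max X1 X2, fun X hX => ?_⟩
    rw [inv_eq]
    exact ⟨Pool.Agent.Q19.JL.Iv_fin K (hX1.trans ((le_max_left _ _).trans hX)),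
      h2 X ((le_max_right _ _).trans hX), h1 X ((le_max_left _ _).trans hX)⟩
  · obtain ⟨ν, X₀, hν, -, h⟩ := Pool.Agent.Q19.SU.n_prop K t
      (Module.finrank ℚ K * Real.log 2 / (1 - t)) ht
    refine ⟨ν, X₀, hν, fun X hX => ?_⟩
    rw [inv_eq]
    exact h X hX _ (fun j hj => hj.1) fun j hj hcon => hj.2 (small_of ht1 hcon.1 hcon.2.2)

end Pool.Agent.Results.MP_160b6c_nt.PowersAllHeights
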